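import Pool.Agent.MP_a87fbc_pr.Main

set_option autoImplicit false

open Filter MeasureTheory ProbabilityTheory Pool.Agent.MP_a87fbc_pr

namespace Pool.Agent.Results.MP_a87fbc_pr.ValueConverges

theorem result (Ω : Type) [MeasurableSpace Ω] (P : Measure Ω) [IsProbabilityMeasure P]
    (X : List Bool × Bool → Ω → ℝ) (hmeas : ∀ e, Measurable (X e)) (hind : iIndepFun X P)
    (hpos : ∀ e, P {ω | X e ω = 1} = 1 / 2) (hneg : ∀ e, P {ω | X e ω = -1} = 1 / 2) :
    ∃ (μ : Measure ℝ) (_ : IsProbabilityMeasure μ),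
      TendstoInDistribution (fun (n : ℕ) ω => gameValue (fun e => X e ω) (2 * n) []) atTop id
        (fun _ => P) μ :=
  main hmeas hind hpos hneg

end Pool.Agent.Results.MP_a87fbc_pr.ValueConverges
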